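import Mathlib

/-!
Two consequences of the Artin-Rees lemma, and reduction of endomorphisms modulo an ideal.
-/

set_option autoImplicit false

namespace Pool.Agent.H.MP_59b15d_al.QT

section ar

variable {R E X : Type*} [CommRing R] [IsNoetherianRing R] [AddCommGroup E] [Module R E]
  [AddCommGroup X] [Module R X] [Module.Finite R X]

/-- Artin-Rees for a linear map. -/
theorem ar_map (I : Ideal R) (L : E →ₗ[R] X) : ∃ c : ℕ, ∀ (m : ℕ) (z : E),
    L z ∈ I ^ (m + c) • (⊤ : Submodule R X) →
      ∃ y ∈ I ^ m • (⊤ : Submodule R E), L (z - y) = 0 := by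
  obtain ⟨k, hk⟩ := Ideal.exists_pow_inf_eq_pow_smul I (LinearMap.range L)
  refine ⟨k, fun m z hz => ?_⟩
  have h1 : L z ∈ I ^ (m + k) • (⊤ : Submodule R X) ⊓ LinearMap.range L :=
    ⟨hz, LinearMap.mem_range_self L z⟩
  rw [hk (m + k) (Nat.le_add_left _ _), Nat.add_sub_cancel] at h1
  have h2 : I ^ m • (I ^ k • ⊤ ⊓ LinearMap.range L) ≤ (I ^ m • (⊤ : Submodule R E)).map L := by
    rw [Submodule.map_smul'', Submodule.map_top]
    exact Submodule.smul_mono le_rfl inf_le_right
  obtain ⟨y, hy, hyz⟩ := h2 h1
  exact ⟨y, hy, by rw [map_sub, hyz, sub_self]⟩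

end ar

section red

variable {R V : Type*} [CommRing R] [AddCommGroup V] [Module R V]

/-- Reduction of an endomorphism modulo an ideal. -/
def red (J : Ideal R) : Module.End R V →* Module.End R (V ⧸ (J • (⊤ : Submodule R V))) where
  toFun e := Submodule.mapQ _ _ e (Submodule.smul_top_le_comap_smul_top J e)
  map_one' := by
    ext v
    rfl
  map_mul' := by
    intro e e'
    ext v
    rfl

theorem red_mk (J : Ideal R) (e : Module.End R V) (v : V) :
    red J e (Submodule.Quotient.mk v) = Submodule.Quotient.mk (e v) := rfl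

theorem red_smul (J : Ideal R) (r : R) (e : Module.End R V) : red J (r • e) = r • red J e := by
  ext v
  rfl

theorem red_eq_iff (J : Ideal R) (e e' : Module.End R V) :
    red J e = red J e' ↔ ∀ v, e v - e' v ∈ J • (⊤ : Submodule R V) := by
  constructor
  · intro h v
    have h1 := DFunLike.congr_fun h (Submodule.Quotient.mk v)
    rw [red_mk, red_mk] at h1
    exact (Submodule.Quotient.eq _).1 h1
  · intro h
    refine LinearMap.ext fun x => ?_
    obtain ⟨v, rfl⟩ := Submodule.Quotient.mk_surjective _ x
    rw [red_mk, red_mk]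
    exact (Submodule.Quotient.eq _).2 (h v)

end red

section fin

variable {R V : Type*} [CommRing R] [AddCommGroup V] [Module R V] [Module.Finite R V]

theorem finite_quot_pow [IsNoetherianRing R] (I : Ideal R) [Finite (R ⧸ I)] (n : ℕ) :
    Finite (R ⧸ (I ^ n)) := by
  exact Ideal.finite_quotient_pow (IsNoetherian.noetherian I) n

theorem finite_quot_smul (J : Ideal R) [Finite (R ⧸ J)] :
    Finite (V ⧸ (J • (⊤ : Submodule R V))) := by
  have : Module.Finite (R ⧸ J) (V ⧸ (J • (⊤ : Submodule R V))) := by
    refine Module.Finite.of_restrictScalars_finite R (R ⧸ J) _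
  exact Module.finite_of_finite (R ⧸ J)

end fin

end Pool.Agent.H.MP_59b15d_al.QT
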