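import Mathlib
import Pool.Agent.H.MP_59b15d_al.h76r.Sb

/-!
The restriction theorem for subgroups of finite index of the mapping class group only.
-/

set_option autoImplicit false

namespace Pool.Agent.H.MP_59b15d_al.QT

open Pool.MP_59b15d_al.H24T Pool.MP_59b15d_al.H76R
open Pool.MP_59b15d_al.H76

section tone

variable {G : Type*} [Group G] {n : ℕ} {a b : Fin (n + 1) → G}

theorem TA_mm {m : ℕ} {a b : Fin m → G} (h : IsSurf a b) (i : Fin m) : TA h i ∈ MMs h :=
  Subgroup.subset_closure (Or.inr (Or.inl ⟨i, rfl⟩))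

theorem TB_mm {m : ℕ} {a b : Fin m → G} (h : IsSurf a b) (i : Fin m) : TB h i ∈ MMs h :=
  Subgroup.subset_closure (Or.inr (Or.inr (Or.inl ⟨i, rfl⟩)))

theorem TC_mm {m : ℕ} {a b : Fin m → G} (h : IsSurf a b) (i j : Fin m) (hij : (j : ℕ) = i + 1) :
    TC h i j hij ∈ MMs h :=
  Subgroup.subset_closure (Or.inr (Or.inr (Or.inr ⟨i, j, hij, rfl⟩)))

theorem conj_mm {m : ℕ} {a b : Fin m → G} (h : IsSurf a b) (x : G) : MulAut.conj x ∈ MMs h :=
  Subgroup.subset_closure (Or.inl ⟨x, rfl⟩)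

/-- The mapping classes commuting modulo `N` with the deep mapping classes of the first handles. -/
def SSr (h : IsSurf a b) (N : Subgroup (MulAut G)) (hn : ∀ f ∈ MMs h, ∀ x ∈ N, f * x * f⁻¹ ∈ N)
    (U : Subgroup (Fr n)) : Subgroup (MulAut G) where
  carrier := {ψ | ψ ∈ MMs h ∧ ∀ f' f, Pair h f' f → f ∈ MMs h → (∀ z, f' z * z⁻¹ ∈ U) →
    f * ψ * f⁻¹ * ψ⁻¹ ∈ N}
  one_mem' := by
    refine ⟨Subgroup.one_mem _, ?_⟩
    intro f' f _ _ _
    simp only [mul_one, mul_inv_cancel, inv_one]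
    exact N.one_mem
  mul_mem' := by
    intro ψ ψ' h1 h2
    refine ⟨Subgroup.mul_mem _ h1.1 h2.1, ?_⟩
    intro f' f hf hm hU
    have h3 := N.mul_mem (h1.2 f' f hf hm hU) (hn ψ h1.1 _ (h2.2 f' f hf hm hU))
    have h4 : f * ψ * f⁻¹ * ψ⁻¹ * (ψ * (f * ψ' * f⁻¹ * ψ'⁻¹) * ψ⁻¹) =
        f * (ψ * ψ') * f⁻¹ * (ψ * ψ')⁻¹ := by group
    rwa [h4] at h3
  inv_mem' := by
    intro ψ h1
    refine ⟨Subgroup.inv_mem _ h1.1, ?_⟩
    intro f' f hf hm hU
    have h3 := hn ψ⁻¹ (Subgroup.inv_mem _ h1.1) _ (N.inv_mem (h1.2 f' f hf hm hU))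
    have h4 : ψ⁻¹ * (f * ψ * f⁻¹ * ψ⁻¹)⁻¹ * ψ⁻¹⁻¹ = f * ψ⁻¹ * f⁻¹ * ψ⁻¹⁻¹ := by group
    rwa [h4] at h3

theorem SSr_pair (h : IsSurf a b) (N : Subgroup (MulAut G))
    (hn : ∀ f ∈ MMs h, ∀ x ∈ N, f * x * f⁻¹ ∈ N) (U : Subgroup (Fr n))
    (hU : U.Characteristic) {t' : MulAut (Fr n)} {t : MulAut G} (ht : Pair h t' t)
    (htm : t ∈ MMs h) {ψ : MulAut G} (hψ : ψ ∈ SSr h N hn U) : t * ψ * t⁻¹ ∈ SSr h N hn U := by
  refine ⟨Subgroup.mul_mem _ (Subgroup.mul_mem _ htm hψ.1) (Subgroup.inv_mem _ htm), ?_⟩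
  intro f' f hf hm hfU
  have h1 := hψ.2 (t'⁻¹ * f' * t') (t⁻¹ * f * t) ((ht.inv.mul hf).mul ht)
    (Subgroup.mul_mem _ (Subgroup.mul_mem _ (Subgroup.inv_mem _ htm) hm) htm) (by
    intro z
    have h2 := apply_mem_of_char hU t'⁻¹ (hfU (t' z))
    rw [map_mul, map_inv, MulAut.inv_apply_self] at h2
    exact h2)
  have h3 := hn t htm _ h1
  have h4 : t * (t⁻¹ * f * t * ψ * (t⁻¹ * f * t)⁻¹ * ψ⁻¹) * t⁻¹ =
      f * (t * ψ * t⁻¹) * f⁻¹ * (t * ψ * t⁻¹)⁻¹ := by group
  rwa [h4] at h3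

/-- Generation. -/
theorem MMs_le_r (h : IsSurf a b) (S : Subgroup (MulAut G)) (hc : ∀ x, MulAut.conj x ∈ S)
    (hS : ∀ (t' : MulAut (Fr n)) (t : MulAut G), Pair h t' t → t ∈ MMs h →
      ∀ ψ ∈ S, t * ψ * t⁻¹ ∈ S)
    (hX : ∀ j, Xb h j ∈ S) (hA : TA h (Fin.last n) ∈ S) (hB : TB h (Fin.last n) ∈ S) :
    MMs h ≤ S := by
  have hlast : ∀ (j : Fin n) (hj : ((Fin.last n : Fin (n + 1)) : ℕ) = j.castSucc + 1),
      TC h j.castSucc (Fin.last n) hj ∈ S ∧ TB h j.castSucc ∈ S := by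
    intro j hj
    have h1 := X0_eq h j hj
    have h2 := TB_comm_TB h (Fin.castSucc_lt_last j).ne
    have h3 := braid_CB h hj
    set C := TC h j.castSucc (Fin.last n) hj with hC
    have h4 : C * TB h (Fin.last n) * C⁻¹ ∈ S := by
      have h5 := S.mul_mem (S.mul_mem (hX j) hB) (S.inv_mem (hX j))
      have h6 : Xb h j * TB h (Fin.last n) * (Xb h j)⁻¹ = C * TB h (Fin.last n) * C⁻¹ := by
        have h7 : Xb h j = C * (TB h j.castSucc)⁻¹ := by rw [← h1, mul_inv_cancel_right]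
        rw [h7, mul_inv_rev, inv_inv]
        calc C * (TB h j.castSucc)⁻¹ * TB h (Fin.last n) * (TB h j.castSucc * C⁻¹) =
            C * ((TB h j.castSucc)⁻¹ * (TB h (Fin.last n) * TB h j.castSucc)) * C⁻¹ := by group
          _ = _ := by rw [← h2.eq]; group
      rwa [h6] at h5
    have hCS : C ∈ S := by
      have h8 : C = TB h (Fin.last n) * (C * TB h (Fin.last n) * C⁻¹) * (TB h (Fin.last n))⁻¹ := by
        calc C = C * TB h (Fin.last n) * C * C⁻¹ * (TB h (Fin.last n))⁻¹ := by group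
          _ = _ := by rw [h3]; group
      rw [h8]
      exact S.mul_mem (S.mul_mem hB h4) (S.inv_mem hB)
    refine ⟨hCS, ?_⟩
    have h9 : TB h j.castSucc = (Xb h j)⁻¹ * C := by rw [← h1, inv_mul_cancel_left]
    rw [h9]
    exact S.mul_mem (S.inv_mem (hX j)) hCS
  have hAB : ∀ j : Fin n, TB h j.castSucc ∈ S → TA h j.castSucc ∈ S := by
    intro j hj
    exact braid_solve (s := (TB h j.castSucc)⁻¹) (t := TA h j.castSucc)
      (braid_AB h j.castSucc).symm S (S.inv_mem hj)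
      (hS _ _ (pair_TA h j) (TA_mm h _) _ (S.inv_mem hj))
  have hdown : ∀ d : ℕ, ∀ j : Fin n, (j : ℕ) + 1 + d = n → TB h j.castSucc ∈ S := by
    intro d
    induction d with
    | zero =>
      intro j hj
      exact (hlast j (by simp only [Fin.val_last, Fin.val_castSucc]; omega)).2
    | succ d ih =>
      intro j hj
      have hj1 : (j : ℕ) + 1 < n := by omega
      let j' : Fin n := ⟨j + 1, hj1⟩
      have hij : (j' : ℕ) = j + 1 := rfl
      have h1 := ih j' (by simp only [j']; omega)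
      have h2 : TCc h hij ∈ S :=
        braid_solve (s := TB h j'.castSucc) (t := TCc h hij) (braid_CB h (cs_hij hij)).symm S h1
          (hS _ _ (pair_TC h hij) (TC_mm h _ _ _) _ h1)
      have h3 : (TA h j.castSucc)⁻¹ ∈ S :=
        braid_solve (s := TCc h hij) (t := (TA h j.castSucc)⁻¹) (braid_CA h (cs_hij hij)) S h2
          (hS _ _ (pair_TA h j).inv (Subgroup.inv_mem _ (TA_mm h _)) _ h2)
      have h4 := S.inv_mem h3
      rw [inv_inv] at h4
      have h5 : (TB h j.castSucc)⁻¹ ∈ S :=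
        braid_solve (s := TA h j.castSucc) (t := (TB h j.castSucc)⁻¹) (braid_AB h j.castSucc) S h4
          (hS _ _ (pair_TB h j).inv (Subgroup.inv_mem _ (TB_mm h _)) _ h4)
      have h6 := S.inv_mem h5
      rwa [inv_inv] at h6
  have hBall : ∀ j : Fin n, TB h j.castSucc ∈ S := by
    intro j
    have := j.2
    exact hdown (n - 1 - j) j (by omega)
  rw [MMs, Subgroup.closure_le]
  rintro T (⟨x, rfl⟩ | ⟨i, rfl⟩ | ⟨i, rfl⟩ | ⟨i, j, hij, rfl⟩)
  · exact hc x
  · refine Fin.lastCases hA (fun i => ?_) i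
    exact hAB i (hBall i)
  · exact Fin.lastCases hB (fun i => hBall i) i
  · have hi : (i : ℕ) < n := by
      have := j.2
      omega
    obtain ⟨i', rfl⟩ : ∃ i' : Fin n, i = i'.castSucc := ⟨⟨i, hi⟩, rfl⟩
    rcases Fin.eq_castSucc_or_eq_last j with ⟨j', rfl⟩ | rfl
    · have hij' : (j' : ℕ) = i' + 1 := hij
      have h1 := hBall j'
      exact braid_solve (s := TB h j'.castSucc) (t := TCc h hij') (braid_CB h (cs_hij hij')).symm
        S h1 (hS _ _ (pair_TC h hij') (TC_mm h _ _ _) _ h1)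
    · exact (hlast i' hij).1

theorem XX_mm (h : IsSurf a b) (y : Fr n) : XX h y ∈ MMs h := XX_mem h y

/-- The restriction theorem for a subgroup of finite index of the mapping class group. -/
theorem T1r (h : IsSurf a b) (N : Subgroup (MulAut G))
    (hn : ∀ f ∈ MMs h, ∀ x ∈ N, f * x * f⁻¹ ∈ N) (hf : N.relIndex (MMs h) ≠ 0)
    (hI : ∀ x : G, MulAut.conj x ∈ N) :
    ∃ U : Subgroup (Fr n), U.Characteristic ∧ U.FiniteIndex ∧ ∀ f' f, Pair h f' f → f ∈ MMs h →
      (∀ z, f' z * z⁻¹ ∈ U) → ∀ ψ ∈ MMs h, f * ψ * f⁻¹ * ψ⁻¹ ∈ N := by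
  have hNn : (N.subgroupOf (MMs h)).Normal :=
    ⟨fun x hx g => hn g.1 g.2 x.1 hx⟩
  have hNf : (N.subgroupOf (MMs h)).FiniteIndex := ⟨hf⟩
  obtain ⟨e, he, hN⟩ := exists_pow_mem (N.subgroupOf (MMs h))
  obtain ⟨Γ₁, h1c, h1f, h1⟩ := exists_det h e he
  have hcn := congSub_normal h1c
  have hcf := congSub_finiteIndex h1c h1f
  have hNe : ∀ ψ ∈ MMs h, ψ ^ e ∈ N := fun ψ hψ => hN ⟨ψ, hψ⟩
  -- the pushes as elements of the mapping class group
  let XM : Fr n →* MMs h := (XX h).codRestrict (MMs h) (XX_mm h)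
  have hNi : ((N.subgroupOf (MMs h)) ⊓ (congSub Γ₁ h1c).subgroupOf (MMs h)).FiniteIndex :=
    inferInstance
  have hU1 : (((N.subgroupOf (MMs h)) ⊓ (congSub Γ₁ h1c).subgroupOf (MMs h)).comap XM).FiniteIndex :=
    comap_fi _ hNi
  have hU2 : (Γ₁.comap (jR a b)).FiniteIndex := comap_fi _ h1f
  obtain ⟨U, hUc, hUf, hU⟩ := exists_char_le
    ((((N.subgroupOf (MMs h)) ⊓ (congSub Γ₁ h1c).subgroupOf (MMs h)).comap XM) ⊓
      Γ₁.comap (jR a b)) inferInstance
  refine ⟨U, hUc, hUf, ?_⟩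
  have hle : MMs h ≤ SSr h N hn U := by
    have hX : ∀ y, XX h y ∈ SSr h N hn U := by
      intro y
      refine ⟨XX_mm h y, ?_⟩
      intro f' f hp hm hfU
      obtain ⟨k, hk⟩ := hp.fX y
      have hu := hU (hfU y)
      have hu1 : XX h (f' y * y⁻¹) ∈ N := hu.1.1
      have hu2 : XX h (f' y * y⁻¹) ∈ congSub Γ₁ h1c := hu.1.2
      have hy : XX h (f' y) = XX h (f' y * y⁻¹) * XX h y := by
        rw [← map_mul, inv_mul_cancel_right]
      have hc := ((TT_XX h y).zpow_left k).eq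
      have h2 : f * XX h y * f⁻¹ * (XX h y)⁻¹ = XX h (f' y * y⁻¹) * TT h ^ k := by
        rw [hk, hy, mul_assoc (XX h (f' y * y⁻¹)), ← hc]
        group
      rw [h2]
      -- the exponent
      have h3 : f ∈ congSub Γ₁ h1c := by
        rw [mem_congSub]
        refine ⟨1, ?_⟩
        have h4 : ∀ x, f x * x⁻¹ ∈ Γ₁ := by
          let π : G →* G ⧸ Γ₁ := QuotientGroup.mk' Γ₁
          have hπ : ∀ z, π z = 1 ↔ z ∈ Γ₁ := fun z => QuotientGroup.eq_one_iff z
          have h5 : π.comp f.toMonoidHom = π := by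
            apply hom_ext h
            · intro i
              refine Fin.lastCases ?_ (fun i => ?_) i
              · change π (f _) = _
                rw [hp.fa]
              · change π (f (a i.castSucc)) = π (a i.castSucc)
                rw [← jR_a (a := a) (b := b), hp.fj, ← mul_inv_eq_one, ← map_inv, ← map_mul, hπ,
                  ← map_inv, ← map_mul]
                exact (hU (hfU _)).2
            · intro i
              refine Fin.lastCases ?_ (fun i => ?_) i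
              · change π (f _) = _
                rw [hp.fb]
              · change π (f (b i.castSucc)) = π (b i.castSucc)
                rw [← jR_b (a := a) (b := b), hp.fj, ← mul_inv_eq_one, ← map_inv, ← map_mul, hπ,
                  ← map_inv, ← map_mul]
                exact (hU (hfU _)).2
          intro x
          rw [← hπ, map_mul, map_inv, mul_inv_eq_one]
          exact DFunLike.congr_fun h5 x
        intro x
        rw [one_mul, inv_one, mul_one]
        exact h4 x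
      have h6 : f * XX h y * f⁻¹ * (XX h y)⁻¹ ∈ congSub Γ₁ h1c := by
        have h7 := (congSub Γ₁ h1c).mul_mem h3 (hcn.conj_mem _ ((congSub Γ₁ h1c).inv_mem h3)
          (XX h y))
        have h8 : f * (XX h y * f⁻¹ * (XX h y)⁻¹) = f * XX h y * f⁻¹ * (XX h y)⁻¹ := by group
        rwa [h8] at h7
      rw [h2] at h6
      have h9 := (congSub Γ₁ h1c).mul_mem ((congSub Γ₁ h1c).inv_mem hu2) h6
      rw [inv_mul_cancel_left] at h9
      exact N.mul_mem hu1 (zpow_mem_of_dvd (hNe (TT h) (TA_mm h _)) (h1 k h9))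
    apply MMs_le_r h
    · intro x
      refine ⟨conj_mm h x, ?_⟩
      intro f' f _ _ _
      rw [conj_comm_G, mul_inv_cancel_right]
      exact N.mul_mem (hI _) (N.inv_mem (hI x))
    · intro t' t ht htm ψ hψ
      exact SSr_pair h N hn U hUc ht htm hψ
    · intro j
      rw [← Pool.MP_59b15d_al.H76R.XX_b h]
      exact hX _
    · refine ⟨TA_mm h _, ?_⟩
      intro f' f hp _ _
      have h2 : f * TA h (Fin.last n) = TA h (Fin.last n) * f :=
        (comm_TT h hp.fj hp.fa hp.fb).eq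
      rw [h2, mul_inv_cancel_right, mul_inv_cancel]
      exact N.one_mem
    · refine ⟨TB_mm h _, ?_⟩
      intro f' f hp _ _
      rw [(comm_TBl h hp.fj hp.fa hp.fb).eq, mul_inv_cancel_right, mul_inv_cancel]
      exact N.one_mem
  intro f' f hp hm hfU ψ hψ
  exact (hle hψ).2 f' f hp hm hfU

end tone

end Pool.Agent.H.MP_59b15d_al.QT
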