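import Mathlib
import Pool.Agent.H.MP_59b15d_al.h73e.Xb
import Pool.Agent.H.MP_59b15d_al.qt.T1r

/-!
The closed surface from genus one higher, for subgroups of finite index of the mapping class group.
-/

set_option autoImplicit false

namespace Pool.Agent.H.MP_59b15d_al.QT

open Pool.MP_59b15d_al.H24T Pool.MP_59b15d_al.H76R Pool.MP_59b15d_al.H73E
open Pool.MP_59b15d_al.H76 (InnMod congSub mem_congSub congSub_normal congSub_finiteIndex
  conj_innMod innMod_mono apply_mem_of_char exists_char_le comap_fi map_fi surf_fg inf_char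
  finite_hom)

section

variable {n : ℕ} {G : Type*} [Group G] {a b : Fin (n + 1) → G} {P : Type*} [Group P]
  {x y : Fin n → P}

theorem bd_mm (h : IsSurf a b) {T : MulAut G} (hT : IsBd a b T) : T ∈ MMs h := by
  obtain ⟨D, l, hD, hX⟩ := exists_DT h
  have h1 := bd_pair h hT
  have h5 : T = D := by
    apply aut_ext h
    · intro k
      refine Fin.lastCases ?_ (fun k => ?_) k
      · rw [h1.fa, hD.fa]
      · rw [← jR_a (a := a) (b := b) k, h1.fj, hD.fj]
    · intro k
      refine Fin.lastCases ?_ (fun k => ?_) k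
      · rw [h1.fb, hD.fb]
      · rw [← jR_b (a := a) (b := b) k, h1.fj, hD.fj]
  have h6 : D = MulAut.conj (aP a b) * XX h (dl n) * TT h ^ (-l) := by
    rw [hX, map_inv]
    group
  rw [h5, h6]
  exact Subgroup.mul_mem _ (Subgroup.mul_mem _ (conj_mm h _) (XX_mm h _))
    (Subgroup.zpow_mem _ (TA_mm h _) _)

theorem bm_mm (h : IsSurf a b) {f : MulAut G} (hf : f ∈ BMod a b) : f ∈ MMs h := by
  rw [BMod_eq h] at hf
  refine (Subgroup.closure_le _).2 ?_ hf
  rintro T ((⟨i, hi, rfl⟩ | ⟨i, hi, rfl⟩ | ⟨i, j, hij, hj, rfl⟩) | hT)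
  · exact TA_mm h _
  · exact TB_mm h _
  · exact TC_mm h _ _ _
  · exact bd_mm h hT

/-- A subgroup of the mapping class group of genus `n` is a congruence subgroup if it contains all
mapping classes induced by mapping classes of the subsurface of genus `n` which are central modulo
some subgroup of finite index in genus `n + 1`. -/
theorem closed_of_N (hn : 3 ≤ n) (h : IsSurf a b) (hP : IsSurf x y) (N : Subgroup (MulAut G))
    (hN : ∀ f ∈ MMs h, ∀ z ∈ N, f * z * f⁻¹ ∈ N) (hf : N.relIndex (MMs h) ≠ 0)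
    (hI : ∀ z : G, MulAut.conj z ∈ N) (H : Subgroup (MulAut P))
    (hH0 : ∀ g : P, MulAut.conj g ∈ H)
    (hH : ∀ f ∈ BMod a b, (∀ ψ ∈ MMs h, f * ψ * f⁻¹ * ψ⁻¹ ∈ N) →
      ∀ φ, Induces x y a b f φ → φ ∈ MMs hP → φ ∈ H) :
    ∃ Γ : Subgroup P, Γ.Characteristic ∧ Γ.FiniteIndex ∧ ∀ φ ∈ MMs hP, InnMod Γ φ → φ ∈ H := by
  obtain ⟨U, hUc, hUf, hU⟩ := T1r h N hN hf hI
  refine bordered_closed hn h hP H hH0 U hUf ?_
  intro f' f φ ht hf hz
  refine hH f hf (fun ψ hψ => hU f' f ht.pair (bm_mm h hf) hz ψ hψ) φ ht.induces ?_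
  obtain ⟨f'', φ', ht', hφ'⟩ := bm_trip h hP f hf
  rw [← ht.unique ht'.induces, Xb_MMs (by omega) hP]
  exact hφ'

end

end Pool.Agent.H.MP_59b15d_al.QT
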