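import Mathlib

/-!
Projective representations over a commutative ring, as they come from modular functors.
-/

set_option autoImplicit false

namespace Pool.Agent.H.MP_59b15d_al.QT

variable {R V G : Type*} [CommRing R] [AddCommGroup V] [Module R V] [Group G]

/-- `ρ` is a projective representation over `R` of the subgroup `M` of `Aut G`, that is,
multiplicative up to units of `R`, and the inner automorphisms of `G` act as units of `R`. -/
def ProjRep (M : Subgroup (MulAut G)) (ρ : MulAut G → Module.End R V) : Prop :=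
  (∀ x : G, ∃ u : Rˣ, ρ (MulAut.conj x) = (u : R) • (1 : Module.End R V)) ∧
    ∀ φ ∈ M, ∀ ψ ∈ M, ∃ u : Rˣ, ρ (φ * ψ) = (u : R) • (ρ φ * ρ ψ)

/-- Some subgroup of finite index of `M` acts by scalars on `V ⧸ J V`. -/
def VirtScalar (M : Subgroup (MulAut G)) (ρ : MulAut G → Module.End R V) (J : Ideal R) : Prop :=
  ∃ K : Subgroup (MulAut G), K.relIndex M ≠ 0 ∧ ∀ ψ ∈ K, ψ ∈ M →
    ∃ r : R, ∀ v : V, ρ ψ v - r • v ∈ J • (⊤ : Submodule R V)

end Pool.Agent.H.MP_59b15d_al.QT
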