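import Mathlib
import Pool.Agent.H.MP_59b15d_al.h73e.Xb
import Pool.Agent.H.MP_59b15d_al.lin.Pf
import Pool.Agent.H.MP_59b15d_al.qt.T1r

/-!
The mapping class group is perfect; elements which are central in a projective representation.
-/

set_option autoImplicit false

namespace Pool.Agent.H.MP_59b15d_al.QT

open Pool.MP_59b15d_al.H24T Pool.MP_59b15d_al.H76R Pool.MP_59b15d_al.H73E
open Pool.MP_59b15d_al.H60G (MR TA_mem TB_mem TC_mem MR_le)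

section abs

variable {A B : Type*} [Group A] [Group B]

/-- The elements of `M` whose image is central. -/
def cenSub (M : Subgroup A) (U : A → B)
    (hU : ∀ φ ∈ M, ∀ ψ ∈ M, ∃ c ∈ Subgroup.center B, U (φ * ψ) = c * U φ * U ψ) :
    Subgroup A where
  carrier := {ψ | ψ ∈ M ∧ U ψ ∈ Subgroup.center B}
  one_mem' := by
    refine ⟨M.one_mem, ?_⟩
    obtain ⟨c, hc, h⟩ := hU 1 M.one_mem 1 M.one_mem
    rw [one_mul] at h
    have h1 : U 1 = c⁻¹ := by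
      have h2 : c * U 1 = 1 := mul_right_cancel (b := U 1) (by rw [one_mul]; exact h.symm)
      exact eq_inv_of_mul_eq_one_right h2
    rw [h1]
    exact Subgroup.inv_mem _ hc
  mul_mem' := by
    rintro ψ ψ' ⟨h1, h2⟩ ⟨h3, h4⟩
    refine ⟨M.mul_mem h1 h3, ?_⟩
    obtain ⟨c, hc, h⟩ := hU ψ h1 ψ' h3
    rw [h]
    exact Subgroup.mul_mem _ (Subgroup.mul_mem _ hc h2) h4
  inv_mem' := by
    rintro ψ ⟨h1, h2⟩
    refine ⟨M.inv_mem h1, ?_⟩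
    obtain ⟨c, hc, h⟩ := hU 1 M.one_mem 1 M.one_mem
    rw [one_mul] at h
    have h3 : U 1 = c⁻¹ := by
      have h2 : c * U 1 = 1 := mul_right_cancel (b := U 1) (by rw [one_mul]; exact h.symm)
      exact eq_inv_of_mul_eq_one_right h2
    obtain ⟨d, hd, h4⟩ := hU ψ h1 ψ⁻¹ (M.inv_mem h1)
    rw [mul_inv_cancel, h3] at h4
    have h5 : U ψ⁻¹ = (d * U ψ)⁻¹ * c⁻¹ := by rw [h4]; group
    rw [h5]
    exact Subgroup.mul_mem _ (Subgroup.inv_mem _ (Subgroup.mul_mem _ hd h2))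
      (Subgroup.inv_mem _ hc)

theorem mem_cenSub {M : Subgroup A} {U : A → B}
    {hU : ∀ φ ∈ M, ∀ ψ ∈ M, ∃ c ∈ Subgroup.center B, U (φ * ψ) = c * U φ * U ψ} {ψ : A} :
    ψ ∈ cenSub M U hU ↔ ψ ∈ M ∧ U ψ ∈ Subgroup.center B := Iff.rfl

variable {M : Subgroup A} {U : A → B}
    (hU : ∀ φ ∈ M, ∀ ψ ∈ M, ∃ c ∈ Subgroup.center B, U (φ * ψ) = c * U φ * U ψ)

include hU in
theorem U_one : U 1 ∈ Subgroup.center B := (cenSub M U hU).one_mem.2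

include hU in
theorem U_inv {ψ : A} (h1 : ψ ∈ M) : ∃ c ∈ Subgroup.center B, U ψ⁻¹ = c * (U ψ)⁻¹ := by
  obtain ⟨d, hd, h4⟩ := hU ψ h1 ψ⁻¹ (M.inv_mem h1)
  rw [mul_inv_cancel] at h4
  have h0 := U_one hU
  have hd2 := Subgroup.inv_mem _ hd
  refine ⟨U 1 * d⁻¹, Subgroup.mul_mem _ h0 hd2, ?_⟩
  have h5 : U ψ⁻¹ = (U ψ)⁻¹ * (d⁻¹ * U 1) := by rw [h4]; group
  rw [h5, (Subgroup.mem_center_iff.1 (Subgroup.mul_mem _ hd2 h0)) (U ψ)⁻¹]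
  rw [(Subgroup.mem_center_iff.1 h0) d⁻¹]

include hU in
/-- Conjugation. -/
theorem U_conj {φ ψ : A} (h1 : φ ∈ M) (h2 : ψ ∈ M) :
    ∃ c ∈ Subgroup.center B, U (φ * ψ * φ⁻¹) = c * (U φ * U ψ * (U φ)⁻¹) := by
  obtain ⟨c1, e1, h3⟩ := hU (φ * ψ) (M.mul_mem h1 h2) φ⁻¹ (M.inv_mem h1)
  obtain ⟨c2, e2, h4⟩ := hU φ h1 ψ h2
  obtain ⟨c3, e3, h5⟩ := U_inv hU h1
  refine ⟨c1 * c2 * c3, Subgroup.mul_mem _ (Subgroup.mul_mem _ e1 e2) e3, ?_⟩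
  rw [h3, h4, h5]
  have k3 := Subgroup.mem_center_iff.1 e3
  calc c1 * (c2 * U φ * U ψ) * (c3 * (U φ)⁻¹) = c1 * c2 * ((U φ * U ψ) * c3) * (U φ)⁻¹ := by group
    _ = c1 * c2 * (c3 * (U φ * U ψ)) * (U φ)⁻¹ := by rw [k3]
    _ = _ := by group

include hU in
theorem cenSub_normal {φ ψ : A} (h1 : φ ∈ M) (h2 : ψ ∈ cenSub M U hU) :
    φ * ψ * φ⁻¹ ∈ cenSub M U hU := by
  refine ⟨M.mul_mem (M.mul_mem h1 h2.1) (M.inv_mem h1), ?_⟩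
  obtain ⟨c, hc, h3⟩ := U_conj hU h1 h2.1
  rw [h3, (Subgroup.mem_center_iff.1 h2.2) (U φ), mul_inv_cancel_right]
  exact Subgroup.mul_mem _ hc h2.2

include hU in
/-- An element which commutes modulo the centre commutes, if the group is perfect. -/
theorem commute_of (hp : ∀ x : M, x ∈ commutator M) {f : A} (hf : f ∈ M)
    (h : ∀ ψ ∈ M, f * ψ * f⁻¹ * ψ⁻¹ ∈ cenSub M U hU) (ψ : A) (hψ : ψ ∈ M) :
    U f * U ψ = U ψ * U f := by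
  have h1 : ∀ ψ ∈ M, U f * U ψ * (U f)⁻¹ * (U ψ)⁻¹ ∈ Subgroup.center B := by
    intro ψ hψ
    obtain ⟨c1, e1, h3⟩ := hU (f * ψ * f⁻¹) (M.mul_mem (M.mul_mem hf hψ) (M.inv_mem hf)) ψ⁻¹
      (M.inv_mem hψ)
    obtain ⟨c2, e2, h4⟩ := U_conj hU hf hψ
    obtain ⟨c3, e3, h5⟩ := U_inv hU hψ
    have h6 := (h ψ hψ).2
    rw [h3, h4, h5] at h6
    have k3 := Subgroup.mem_center_iff.1 e3
    have h7 : c1 * (c2 * (U f * U ψ * (U f)⁻¹)) * (c3 * (U ψ)⁻¹) =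
        (c1 * c2 * c3) * (U f * U ψ * (U f)⁻¹ * (U ψ)⁻¹) := by
      calc c1 * (c2 * (U f * U ψ * (U f)⁻¹)) * (c3 * (U ψ)⁻¹) =
          c1 * c2 * ((U f * U ψ * (U f)⁻¹) * c3) * (U ψ)⁻¹ := by group
        _ = c1 * c2 * (c3 * (U f * U ψ * (U f)⁻¹)) * (U ψ)⁻¹ := by rw [k3]
        _ = _ := by group
    rw [h7] at h6
    exact (Subgroup.mul_mem_cancel_left _
      (Subgroup.mul_mem _ (Subgroup.mul_mem _ e1 e2) e3)).1 h6
  let χ : M →* Subgroup.center B := MonoidHom.mk' (fun ψ => ⟨_, h1 ψ.1 ψ.2⟩) (by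
    intro φ ψ
    apply Subtype.ext
    obtain ⟨c, e, h3⟩ := hU φ.1 φ.2 ψ.1 ψ.2
    have k := Subgroup.mem_center_iff.1 e
    have k2 := Subgroup.mem_center_iff.1 (h1 ψ.1 ψ.2)
    change U f * U (φ.1 * ψ.1) * (U f)⁻¹ * (U (φ.1 * ψ.1))⁻¹ = (U f * U φ.1 * (U f)⁻¹ *
      (U φ.1)⁻¹) * (U f * U ψ.1 * (U f)⁻¹ * (U ψ.1)⁻¹)
    rw [h3]
    have k4 : U f * c = c * U f := k (U f)
    have k5 : U f * (c * U φ.1 * U ψ.1) * (U f)⁻¹ * (c * U φ.1 * U ψ.1)⁻¹ =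
        U f * U φ.1 * U ψ.1 * (U f)⁻¹ * (U φ.1 * U ψ.1)⁻¹ := by
      have k6 : U f * (c * U φ.1 * U ψ.1) * (U f)⁻¹ * (c * U φ.1 * U ψ.1)⁻¹ =
          (U f * c) * U φ.1 * U ψ.1 * (U f)⁻¹ * (c * U φ.1 * U ψ.1)⁻¹ := by group
      rw [k6, k4]
      have k7 := k (U f * U φ.1 * U ψ.1 * (U f)⁻¹ * (U φ.1 * U ψ.1)⁻¹)
      calc c * U f * U φ.1 * U ψ.1 * (U f)⁻¹ * (c * U φ.1 * U ψ.1)⁻¹ =
          (c * (U f * U φ.1 * U ψ.1 * (U f)⁻¹ * (U φ.1 * U ψ.1)⁻¹)) * c⁻¹ := by group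
        _ = _ := by rw [← k7, mul_inv_cancel_right]
    rw [k5]
    have k8 := k2 (U φ.1)
    calc U f * U φ.1 * U ψ.1 * (U f)⁻¹ * (U φ.1 * U ψ.1)⁻¹ =
        U f * U φ.1 * (U f)⁻¹ * (U f * U ψ.1 * (U f)⁻¹ * (U ψ.1)⁻¹) * (U φ.1)⁻¹ := by group
      _ = (U f * U φ.1 * (U f)⁻¹) * ((U f * U ψ.1 * (U f)⁻¹ * (U ψ.1)⁻¹) * (U φ.1)⁻¹) := by
        group
      _ = (U f * U φ.1 * (U f)⁻¹) * ((U φ.1)⁻¹ * (U f * U ψ.1 * (U f)⁻¹ * (U ψ.1)⁻¹)) := by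
        rw [k2 (U φ.1)⁻¹]
      _ = _ := by group)
  have h8 : χ ⟨ψ, hψ⟩ = 1 := by
    have h9 : commutator M ≤ χ.ker := by
      rw [commutator_def, Subgroup.commutator_le]
      intro x _ y _
      rw [MonoidHom.mem_ker, map_commutatorElement, commutatorElement_eq_one_iff_mul_comm]
      exact Subtype.ext (Subgroup.mem_center_iff.1 (χ y).2 (χ x).1)
    exact h9 (hp ⟨ψ, hψ⟩)
  have h9 : U f * U ψ * (U f)⁻¹ * (U ψ)⁻¹ = 1 := congrArg Subtype.val h8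
  have h10 : U f * U ψ = U f * U ψ * (U f)⁻¹ * (U ψ)⁻¹ * U ψ * U f := by group
  rw [h10, h9, one_mul]

end abs

section

variable {m : ℕ} {G : Type*} [Group G] {a b : Fin m → G}

theorem MR_le_mm (h : IsSurf a b) (lo hi : ℕ) : MR h lo hi ≤ MMs h :=
  MR_le h (fun i _ _ => TA_mm h i) (fun i _ _ => TB_mm h i) (fun i j hij _ _ => TC_mm h i j hij)

/-- The mapping class group is perfect in genus at least three. -/
theorem mm_perfect (hm : 3 ≤ m) (h : IsSurf a b) (x : MMs h) : x ∈ commutator (MMs h) := by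
  have key : ∀ lo : ℕ, lo + 2 < m → ∀ y (hy : y ∈ MR h lo (lo + 3)),
      (⟨y, MR_le_mm h _ _ hy⟩ : MMs h) ∈ commutator (MMs h) := by
    intro lo hlo y hy
    have h1 := Pool.MP_59b15d_al.H40L.MR3_trivial h hlo
      ((Abelianization.of (G := MMs h)).comp (Subgroup.inclusion (MR_le_mm h lo (lo + 3)))) ⟨y, hy⟩
    exact (QuotientGroup.eq_one_iff _).1 h1
  have hx : (x : MulAut G) ∈ TW h := by
    rw [← Xb_MMs (by omega) h]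
    exact x.2
  have hle : TW h ≤ (commutator (MMs h)).map (MMs h).subtype := by
    rw [TW, Subgroup.closure_le]
    have hlo : ∀ i : ℕ, i < m → ∃ lo, lo + 2 < m ∧ lo ≤ i ∧ i < lo + 3 := by
      intro i hi
      by_cases h3 : i + 2 < m
      · exact ⟨i, h3, le_rfl, by omega⟩
      · exact ⟨m - 3, by omega, by omega, by omega⟩
    rintro T (⟨i, rfl⟩ | ⟨i, rfl⟩ | ⟨i, j, hij, rfl⟩)
    · obtain ⟨lo, e1, e2, e3⟩ := hlo i i.2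
      exact ⟨_, key lo e1 _ (TA_mem h i e2 e3), rfl⟩
    · obtain ⟨lo, e1, e2, e3⟩ := hlo i i.2
      exact ⟨_, key lo e1 _ (TB_mem h i e2 e3), rfl⟩
    · have h4 : ∃ lo, lo + 2 < m ∧ lo ≤ (i : ℕ) ∧ (j : ℕ) < lo + 3 := by
        have hj := j.2
        by_cases h3 : (i : ℕ) + 2 < m
        · exact ⟨i, h3, le_rfl, by omega⟩
        · exact ⟨m - 3, by omega, by omega, by omega⟩
      obtain ⟨lo, e1, e2, e3⟩ := h4
      exact ⟨_, key lo e1 _ (TC_mem h i j hij e2 e3), rfl⟩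
  obtain ⟨y, hy, hyx⟩ := hle hx
  have : y = x := Subtype.ext hyx
  rw [← this]
  exact hy

end

end Pool.Agent.H.MP_59b15d_al.QT
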