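import Mathlib
import Pool.Agent.H.MP_59b15d_al.qt.Ar
import Pool.Agent.H.MP_59b15d_al.qt.Defs
import Pool.Agent.H.MP_59b15d_al.qt.Pc

/-!
Generalities on functions to an algebra which are multiplicative up to units.
-/

set_option autoImplicit false

namespace Pool.Agent.H.MP_59b15d_al.QT

section

variable {R A E : Type*} [CommRing R] [Group A] [Ring E] [Algebra R E]

/-- Multiplicative up to units of `R`. -/
def PM (R : Type*) {A E : Type*} [CommRing R] [Group A] [Ring E] [Algebra R E]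
    (M : Subgroup A) (σ : A → E) : Prop :=
  (∃ u : Rˣ, σ 1 = (u : R) • (1 : E)) ∧
    ∀ φ ∈ M, ∀ ψ ∈ M, ∃ u : Rˣ, σ (φ * ψ) = (u : R) • (σ φ * σ ψ)

theorem usmul_cancel {X : Type*} [AddCommGroup X] [Module R X] (u : Rˣ) {x y : X}
    (h : (u : R) • x = (u : R) • y) : x = y := by
  have h1 := congrArg (fun z => ((u⁻¹ : Rˣ) : R) • z) h
  simpa [smul_smul] using h1

variable {M : Subgroup A} {σ : A → E}

theorem PM.pair (h : PM R M σ) {ψ : A} (hψ : ψ ∈ M) :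
    ∃ α : Rˣ, σ ψ * σ ψ⁻¹ = (α : R) • (1 : E) ∧ σ ψ⁻¹ * σ ψ = (α : R) • (1 : E) := by
  obtain ⟨u0, h0⟩ := h.1
  obtain ⟨u, h1⟩ := h.2 ψ hψ ψ⁻¹ (M.inv_mem hψ)
  obtain ⟨v, h2⟩ := h.2 ψ⁻¹ (M.inv_mem hψ) ψ hψ
  rw [mul_inv_cancel, h0] at h1
  rw [inv_mul_cancel, h0] at h2
  have e1 : σ ψ * σ ψ⁻¹ = ((u⁻¹ * u0 : Rˣ) : R) • (1 : E) := by
    apply usmul_cancel u
    rw [← h1, smul_smul, ← Units.val_mul, mul_inv_cancel_left]
  have e2 : σ ψ⁻¹ * σ ψ = ((v⁻¹ * u0 : Rˣ) : R) • (1 : E) := by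
    apply usmul_cancel v
    rw [← h2, smul_smul, ← Units.val_mul, mul_inv_cancel_left]
  refine ⟨u⁻¹ * u0, e1, ?_⟩
  -- the two scalars agree on `E`
  have e3 : ((u⁻¹ * u0 : Rˣ) : R) • σ ψ⁻¹ = ((v⁻¹ * u0 : Rˣ) : R) • σ ψ⁻¹ := by
    have h3 : σ ψ⁻¹ * (σ ψ * σ ψ⁻¹) = (σ ψ⁻¹ * σ ψ) * σ ψ⁻¹ := (mul_assoc _ _ _).symm
    rw [e1, e2] at h3
    simpa using h3
  have e4 : ((u⁻¹ * u0 : Rˣ) : R) • (σ ψ⁻¹ * σ ψ) = ((v⁻¹ * u0 : Rˣ) : R) • (σ ψ⁻¹ * σ ψ) := by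
    rw [← smul_mul_assoc, e3, smul_mul_assoc]
  rw [e2]
  apply usmul_cancel (v⁻¹ * u0)
  rw [e2] at e4
  rw [smul_comm] at e4
  exact e4.symm

theorem PM.isUnit (h : PM R M σ) {ψ : A} (hψ : ψ ∈ M) : IsUnit (σ ψ) := by
  obtain ⟨α, h1, h2⟩ := h.pair hψ
  refine ⟨⟨σ ψ, ((α⁻¹ : Rˣ) : R) • σ ψ⁻¹, ?_, ?_⟩, rfl⟩
  · rw [mul_smul_comm, h1, smul_smul, ← Units.val_mul, inv_mul_cancel, Units.val_one, one_smul]
  · rw [smul_mul_assoc, h2, smul_smul, ← Units.val_mul, inv_mul_cancel, Units.val_one, one_smul]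

/-- The elements whose image commutes with `z`. -/
def comSub (M : Subgroup A) (σ : A → E) (h : PM R M σ) (z : E) : Subgroup A where
  carrier := {ψ | ψ ∈ M ∧ z * σ ψ = σ ψ * z}
  one_mem' := by
    obtain ⟨u, h1⟩ := h.1
    refine ⟨M.one_mem, ?_⟩
    rw [h1, mul_smul_comm, smul_mul_assoc, mul_one, one_mul]
  mul_mem' := by
    rintro φ ψ ⟨h1, h2⟩ ⟨h3, h4⟩
    refine ⟨M.mul_mem h1 h3, ?_⟩
    obtain ⟨u, h5⟩ := h.2 φ h1 ψ h3
    rw [h5, mul_smul_comm, smul_mul_assoc, ← mul_assoc, h2, mul_assoc, h4, mul_assoc]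
  inv_mem' := by
    rintro ψ ⟨h1, h2⟩
    refine ⟨M.inv_mem h1, ?_⟩
    obtain ⟨α, h3, h4⟩ := h.pair h1
    apply usmul_cancel α
    have h5 : σ ψ⁻¹ * (z * σ ψ) * σ ψ⁻¹ = σ ψ⁻¹ * (σ ψ * z) * σ ψ⁻¹ := by rw [h2]
    have h6 : σ ψ⁻¹ * (z * σ ψ) * σ ψ⁻¹ = (α : R) • (σ ψ⁻¹ * z) := by
      rw [mul_assoc, mul_assoc, h3, mul_smul_comm, mul_one, mul_smul_comm]
    have h7 : σ ψ⁻¹ * (σ ψ * z) * σ ψ⁻¹ = (α : R) • (z * σ ψ⁻¹) := by
      rw [← mul_assoc, h4, smul_mul_assoc, one_mul, smul_mul_assoc]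
    rw [← h6, ← h7, h5]

theorem mem_comSub {h : PM R M σ} {z : E} {ψ : A} :
    ψ ∈ comSub M σ h z ↔ ψ ∈ M ∧ z * σ ψ = σ ψ * z := Iff.rfl

/-- The units attached to the elements of `M`. -/
noncomputable def un (σ : A → E) (ψ : A) : Eˣ :=
  haveI := Classical.dec (IsUnit (σ ψ))
  if h : IsUnit (σ ψ) then h.unit else 1

theorem un_val (h : PM R M σ) {ψ : A} (hψ : ψ ∈ M) : (un σ ψ : E) = σ ψ := by
  have h1 := h.isUnit hψ
  rw [un, dif_pos h1]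
  rfl

theorem scal_center (u : Rˣ) : Units.map (algebraMap R E : R →* E) u ∈ Subgroup.center Eˣ := by
  rw [Subgroup.mem_center_iff]
  intro g
  apply Units.ext
  change (g : E) * algebraMap R E u = algebraMap R E u * (g : E)
  exact (Algebra.commutes _ _).symm

theorem un_mul (h : PM R M σ) : ∀ φ ∈ M, ∀ ψ ∈ M, ∃ c ∈ Subgroup.center Eˣ,
    un σ (φ * ψ) = c * un σ φ * un σ ψ := by
  intro φ hφ ψ hψ
  obtain ⟨u, h1⟩ := h.2 φ hφ ψ hψ
  refine ⟨_, scal_center u, ?_⟩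
  apply Units.ext
  rw [un_val h (M.mul_mem hφ hψ), h1, Units.val_mul, Units.val_mul, un_val h hφ, un_val h hψ,
    Units.coe_map, Algebra.smul_def, mul_assoc]
  rfl

/-- If `σ ψ` commutes with everything, then its unit is central. -/
theorem un_center (h : PM R M σ) {ψ : A} (hψ : ψ ∈ M) (hc : ∀ e : E, e * σ ψ = σ ψ * e) :
    un σ ψ ∈ Subgroup.center Eˣ := by
  rw [Subgroup.mem_center_iff]
  intro g
  apply Units.ext
  rw [Units.val_mul, Units.val_mul, un_val h hψ, hc]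

/-- The elements which are central modulo the elements with central image have an image that
commutes with the whole image, if the group is perfect. -/
theorem sigma_comm (h : PM R M σ) (hp : ∀ x : M, x ∈ commutator M) {f : A} (hf : f ∈ M)
    (hc : ∀ ψ ∈ M, f * ψ * f⁻¹ * ψ⁻¹ ∈ cenSub M (un σ) (un_mul h)) {ψ : A} (hψ : ψ ∈ M) :
    σ f * σ ψ = σ ψ * σ f := by
  have h1 := commute_of (un_mul h) hp hf hc ψ hψ
  have h2 := congrArg Units.val h1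
  rwa [Units.val_mul, Units.val_mul, un_val h hf, un_val h hψ] at h2

end

section

variable {R V G : Type*} [CommRing R] [AddCommGroup V] [Module R V] [Group G]

theorem ProjRep.pm {M : Subgroup (MulAut G)} {ρ : MulAut G → Module.End R V}
    (h : ProjRep M ρ) : PM R M ρ := by
  refine ⟨?_, h.2⟩
  obtain ⟨u, hu⟩ := h.1 1
  refine ⟨u, ?_⟩
  rw [← hu, map_one]

theorem PM.red {A : Type*} [Group A] {M : Subgroup A} {ρ : A → Module.End R V}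
    (h : PM R M ρ) (J : Ideal R) : PM R M (fun φ => red J (ρ φ)) := by
  obtain ⟨⟨u, hu⟩, h2⟩ := h
  refine ⟨⟨u, ?_⟩, ?_⟩
  · change QT.red J (ρ 1) = _
    rw [hu, red_smul, map_one]
  · intro φ hφ ψ hψ
    obtain ⟨v, hv⟩ := h2 φ hφ ψ hψ
    refine ⟨v, ?_⟩
    change QT.red J (ρ (φ * ψ)) = _
    rw [hv, red_smul, map_mul]

end

end Pool.Agent.H.MP_59b15d_al.QT
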