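import Mathlib
import Pool.Agent.H.MP_59b15d_al.qt.Cl
import Pool.Agent.H.MP_59b15d_al.qt.Pr

/-!
The kernel of a projective representation with the gluing property is a congruence subgroup.
-/

set_option autoImplicit false

namespace Pool.Agent.H.MP_59b15d_al.QT

open Pool.MP_59b15d_al.H24T Pool.MP_59b15d_al.H76R Pool.MP_59b15d_al.H73E
open Pool.MP_59b15d_al.H76 (InnMod)

section

variable {n : ℕ} {G : Type*} [Group G] {a b : Fin (n + 1) → G} {P : Type*} [Group P]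
  {x y : Fin n → P}
variable {R V V' : Type*} [CommRing R] [AddCommGroup V] [Module R V] [AddCommGroup V'] [Module R V']

/-- The mapping classes whose image commutes modulo `J` with the whole image. -/
def HJ {A : Type*} [Group A] (M : Subgroup A) (ρ : A → Module.End R V) (h : PM R M ρ)
    (J : Ideal R) : Subgroup A where
  carrier := {φ | φ ∈ M ∧ ∀ ψ ∈ M, red J (ρ ψ) * red J (ρ φ) = red J (ρ φ) * red J (ρ ψ)}
  one_mem' := ⟨M.one_mem, fun ψ _ => (comSub M (fun φ => red J (ρ φ)) (h.red J)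
    (red J (ρ ψ))).one_mem.2⟩
  mul_mem' := fun h1 h2 => ⟨M.mul_mem h1.1 h2.1, fun ψ hψ =>
    ((comSub M (fun φ => red J (ρ φ)) (h.red J) (red J (ρ ψ))).mul_mem
      (⟨h1.1, h1.2 ψ hψ⟩) (⟨h2.1, h2.2 ψ hψ⟩)).2⟩
  inv_mem' := fun h1 => ⟨M.inv_mem h1.1, fun ψ hψ =>
    ((comSub M (fun φ => red J (ρ φ)) (h.red J) (red J (ρ ψ))).inv_mem
      (⟨h1.1, h1.2 ψ hψ⟩)).2⟩

/-- Acting by scalars on a subgroup of finite index. -/
theorem cen_of_virt {A : Type*} [Group A] {M : Subgroup (MulAut A)}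
    {ρ : MulAut A → Module.End R V} (hpm : PM R M ρ) (J : Ideal R) (hV : VirtScalar M ρ J) :
    (cenSub M (un fun φ => red J (ρ φ)) (un_mul (hpm.red J))).relIndex M ≠ 0 := by
  obtain ⟨K, hK, hKs⟩ := hV
  have h4 : K ⊓ M ≤ cenSub M (un fun φ => red J (ρ φ)) (un_mul (hpm.red J)) := by
    intro ψ hψ
    obtain ⟨r, hr1⟩ := hKs ψ hψ.1 hψ.2
    refine ⟨hψ.2, un_center (hpm.red J) hψ.2 fun e => ?_⟩
    have h1 : red J (ρ ψ) = r • 1 := by
      have h2 : red J (ρ ψ) = red J (r • 1) := by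
        rw [red_eq_iff]
        exact hr1
      rw [h2, red_smul, map_one]
    change e * red J (ρ ψ) = red J (ρ ψ) * e
    rw [h1, mul_smul_comm, smul_mul_assoc, mul_one, one_mul]
  have h5 := Subgroup.relIndex_dvd_of_le_left M h4
  rw [Subgroup.inf_relIndex_right] at h5
  exact fun h6 => hK (by rw [h6] at h5; exact Nat.eq_zero_of_zero_dvd h5)

/-- The case of a finite quotient. -/
theorem cen_of_finite {A : Type*} [Group A] {M : Subgroup A} {E : Type*} [Ring E] [Algebra R E]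
    [Finite E] {σ : A → E} (h : PM R M σ) : (cenSub M (un σ) (un_mul h)).relIndex M ≠ 0 := by
  let π : M →* Eˣ ⧸ Subgroup.center Eˣ :=
    MonoidHom.mk' (fun ψ => QuotientGroup.mk (un σ ψ.1)) (by
      intro φ ψ
      obtain ⟨c, hc, h1⟩ := un_mul h φ.1 φ.2 ψ.1 ψ.2
      change QuotientGroup.mk (un σ (φ.1 * ψ.1)) = _
      rw [h1, ← QuotientGroup.mk_mul]
      refine QuotientGroup.eq.2 ?_
      have h2 : (c * un σ φ.1 * un σ ψ.1)⁻¹ * (un σ φ.1 * un σ ψ.1) =
          (un σ φ.1 * un σ ψ.1)⁻¹ * (c⁻¹ * (un σ φ.1 * un σ ψ.1)) := by group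
      rw [h2, ← Subgroup.mem_center_iff.1 (Subgroup.inv_mem _ hc), inv_mul_cancel_left]
      exact Subgroup.inv_mem _ hc)
  have h1 : (cenSub M (un σ) (un_mul h)).subgroupOf M = π.ker := by
    ext ψ
    rw [Subgroup.mem_subgroupOf, MonoidHom.mem_ker, mem_cenSub]
    change _ ↔ (QuotientGroup.mk (un σ ψ.1) : Eˣ ⧸ Subgroup.center Eˣ) = 1
    rw [QuotientGroup.eq_one_iff]
    exact ⟨fun h => h.2, fun h => ⟨ψ.2, h⟩⟩
  rw [Subgroup.relIndex, h1]
  exact (Subgroup.finiteIndex_ker π).index_ne_zero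

/-- First step: deep mapping classes commute with everything modulo a power of `I`. -/
theorem stepA [IsNoetherianRing R] [Module.Finite R V'] (hn : 3 ≤ n) (h : IsSurf a b)
    (hP : IsSurf x y) (ρ : MulAut P → Module.End R V) (ρ' : MulAut G → Module.End R V')
    (hρ : ProjRep (MMs hP) ρ) (hρ' : ProjRep (MMs h) ρ') (i : V →ₗ[R] V')
    (hi : Function.Injective i)
    (hglue : ∀ f ∈ BMod a b, ∀ φ ∈ MMs hP, Induces x y a b f φ →
      ∃ u : Rˣ, ∀ v, ρ' f (i v) = (u : R) • i (ρ φ v))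
    (I : Ideal R) (hI : ∀ k, (cenSub (MMs h) (un fun φ => red (I ^ k) (ρ' φ))
      (un_mul (hρ'.pm.red (I ^ k)))).relIndex (MMs h) ≠ 0) (m : ℕ) :
    ∃ Γ : Subgroup P, Γ.Characteristic ∧ Γ.FiniteIndex ∧ ∀ φ ∈ MMs hP, InnMod Γ φ →
      ∀ ψ ∈ MMs hP, ∀ v, ρ φ (ρ ψ v) - ρ ψ (ρ φ v) ∈ I ^ m • (⊤ : Submodule R V) := by
  obtain ⟨c, hc⟩ := ar_map I i
  obtain ⟨J, hJ⟩ : ∃ J, J = I ^ (m + c) := ⟨_, rfl⟩
  have hpm := hρ.pm
  have hpm' := hρ'.pm
  have hr := hpm'.red J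
  have hK : (cenSub (MMs h) (un fun φ => red J (ρ' φ)) (un_mul hr)).relIndex (MMs h) ≠ 0 := by
    subst hJ
    exact hI (m + c)
  -- the subgroup of genus one higher
  have hscal : ∀ ψ ∈ MMs h, (∃ r : R, ∀ v, ρ' ψ v - r • v ∈ J • (⊤ : Submodule R V')) →
      ψ ∈ cenSub (MMs h) (un fun φ => red J (ρ' φ)) (un_mul hr) := by
    rintro ψ hψ ⟨r, hr1⟩
    refine ⟨hψ, un_center hr hψ fun e => ?_⟩
    have h1 : red J (ρ' ψ) = r • 1 := by
      have h2 : red J (ρ' ψ) = red J (r • 1) := by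
        rw [red_eq_iff]
        exact hr1
      rw [h2, red_smul, map_one]
    change e * red J (ρ' ψ) = red J (ρ' ψ) * e
    rw [h1, mul_smul_comm, smul_mul_assoc, mul_one, one_mul]
  obtain ⟨Γ, h1, h2, h3⟩ := closed_of_N hn h hP
    (cenSub (MMs h) (un fun φ => red J (ρ' φ)) (un_mul hr))
    (fun f hf z hz => cenSub_normal (un_mul hr) hf hz)
    hK
    (fun z => by
      refine hscal _ (conj_mm h z) ?_
      obtain ⟨u, hu⟩ := hρ'.1 z
      refine ⟨u, fun v => ?_⟩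
      rw [hu]
      have : ((u : R) • (1 : Module.End R V')) v - (u : R) • v = 0 := sub_self _
      rw [this]
      exact Submodule.zero_mem _)
    (HJ (MMs hP) ρ hpm (I ^ m))
    (fun g => by
      refine ⟨conj_mm hP g, fun ψ _ => ?_⟩
      obtain ⟨u, hu⟩ := hρ.1 g
      rw [hu, red_smul, map_one, mul_smul_comm, smul_mul_assoc, mul_one, one_mul])
    (by
      intro f hf hcom φ hφ hφm
      refine ⟨hφm, fun ψ hψ => ?_⟩
      rw [← map_mul, ← map_mul, red_eq_iff]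
      intro v
      obtain ⟨k, hk, k', ht⟩ := bm_surj h hP ψ (by rw [← Xb_MMs (by omega) hP]; exact hψ)
      obtain ⟨u1, e1⟩ := hglue f hf φ hφm hφ
      obtain ⟨u2, e2⟩ := hglue k hk ψ hψ ht.induces
      have h4 := sigma_comm hr (mm_perfect (by omega) h) (bm_mm h hf) hcom (bm_mm h hk)
      change red J (ρ' f) * red J (ρ' k) = red J (ρ' k) * red J (ρ' f) at h4
      rw [← map_mul, ← map_mul, red_eq_iff] at h4
      have h5 := h4 (i v)
      have h6 : (ρ' f * ρ' k) (i v) - (ρ' k * ρ' f) (i v) =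
          ((u1 : R) * (u2 : R)) • i (ρ φ (ρ ψ v) - ρ ψ (ρ φ v)) := by
        rw [Module.End.mul_apply, Module.End.mul_apply, e1, e2, map_smul, map_smul, e1, e2,
          map_sub, smul_sub, smul_smul, smul_smul, mul_comm (u2 : R)]
      rw [h6, hJ] at h5
      have h7 := Submodule.smul_mem (I ^ (m + c) • (⊤ : Submodule R V'))
        (((u1 * u2)⁻¹ : Rˣ) : R) h5
      rw [smul_smul, ← Units.val_mul, ← Units.val_mul, inv_mul_cancel, Units.val_one,
        one_smul] at h7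
      obtain ⟨w, hw, hw2⟩ := hc m _ h7
      have h8 := hi (hw2.trans (map_zero i).symm)
      have h9 : (ρ ψ * ρ φ) v - (ρ φ * ρ ψ) v = -w := by
        rw [Module.End.mul_apply, Module.End.mul_apply, ← sub_eq_zero, sub_neg_eq_add]
        have h10 : ρ ψ (ρ φ v) - ρ φ (ρ ψ v) + w = -(ρ φ (ρ ψ v) - ρ ψ (ρ φ v) - w) := by abel
        rw [h10, h8, neg_zero]
      rw [h9]
      exact Submodule.neg_mem _ hw)
  refine ⟨Γ, h1, h2, fun φ hφ hinn ψ hψ v => ?_⟩
  have h4 := (h3 φ hφ hinn).2 ψ hψ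
  rw [← map_mul, ← map_mul, red_eq_iff] at h4
  have h5 := Submodule.neg_mem _ (h4 v)
  rw [neg_sub] at h5
  exact h5

end

end Pool.Agent.H.MP_59b15d_al.QT
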