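import Mathlib
import Pool.Agent.H.MP_59b15d_al.qt.Mn

/-!
From commuting modulo a power of `I` to the commutant modulo `I`.
-/

set_option autoImplicit false

namespace Pool.Agent.H.MP_59b15d_al.QT

open Pool.MP_59b15d_al.H24T Pool.MP_59b15d_al.H76R Pool.MP_59b15d_al.H73E
open Pool.MP_59b15d_al.H76 (InnMod)

section

variable {n : ℕ} {G : Type*} [Group G] {a b : Fin (n + 1) → G} {P : Type*} [Group P]
  {x y : Fin n → P}
variable {R V V' : Type*} [CommRing R] [AddCommGroup V] [Module R V] [AddCommGroup V'] [Module R V']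

/-- The finitely many twists. -/
noncomputable def tws {m : ℕ} {a b : Fin m → G} (h : IsSurf a b) :
    Fin m ⊕ Fin m ⊕ {p : Fin m × Fin m // (p.2 : ℕ) = p.1 + 1} → MulAut G :=
  Sum.elim (TA h) (Sum.elim (TB h) fun p => TC h p.1.1 p.1.2 p.2)

theorem tws_mm {m : ℕ} {a b : Fin m → G} (h : IsSurf a b) (k) : tws h k ∈ MMs h := by
  rcases k with k | k | k
  · exact TA_mm h k
  · exact TB_mm h k
  · exact TC_mm h k.1.1 k.1.2 k.2

theorem tws_gen {m : ℕ} (hm : 0 < m) {a b : Fin m → G} (h : IsSurf a b) (S : Subgroup (MulAut G))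
    (hS : ∀ k, tws h k ∈ S) : MMs h ≤ S := by
  rw [Xb_MMs hm h, TW, Subgroup.closure_le]
  rintro T (⟨i, rfl⟩ | ⟨i, rfl⟩ | ⟨i, j, hij, rfl⟩)
  · exact hS (Sum.inl i)
  · exact hS (Sum.inr (Sum.inl i))
  · exact hS (Sum.inr (Sum.inr ⟨(i, j), hij⟩))

theorem pi_mem_smul {κ : Type*} [Finite κ] (J : Ideal R) (f : κ → V)
    (hf : ∀ k, f k ∈ J • (⊤ : Submodule R V)) : f ∈ J • (⊤ : Submodule R (κ → V)) := by
  classical
  have := Fintype.ofFinite κ
  rw [← Finset.univ_sum_single f]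
  refine Submodule.sum_mem _ fun k _ => ?_
  have h1 : (J • (⊤ : Submodule R V)).map (LinearMap.single R (fun _ : κ => V) k) ≤
      J • (⊤ : Submodule R (κ → V)) := by
    rw [Submodule.map_smul'']
    exact Submodule.smul_mono le_rfl le_top
  exact h1 ⟨f k, hf k, rfl⟩

/-- Commuting modulo a high power of `I` with the whole group implies congruence modulo `I` to an
element of the commutant. -/
theorem stepB [IsNoetherianRing R] [Module.Finite R V] (hn : 0 < n) (hP : IsSurf x y)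
    (ρ : MulAut P → Module.End R V) (hρ : PM R (MMs hP) ρ) (I : Ideal R) :
    ∃ m : ℕ, ∀ e : Module.End R V,
      (∀ ψ ∈ MMs hP, ∀ v, e (ρ ψ v) - ρ ψ (e v) ∈ I ^ m • (⊤ : Submodule R V)) →
      ∃ z : Module.End R V, (∀ ψ ∈ MMs hP, z * ρ ψ = ρ ψ * z) ∧
        e - z ∈ I • (⊤ : Submodule R (Module.End R V)) := by
  obtain ⟨s, hs⟩ := Module.Finite.fg_top (R := R) (M := V)
  let κ := (Fin n ⊕ Fin n ⊕ {p : Fin n × Fin n // (p.2 : ℕ) = p.1 + 1}) × s
  let L : Module.End R V →ₗ[R] (κ → V) :=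
    { toFun := fun e k => e (ρ (tws hP k.1) k.2) - ρ (tws hP k.1) (e k.2)
      map_add' := by
        intro e e'
        funext k
        simp only [LinearMap.add_apply, map_add, Pi.add_apply]
        abel
      map_smul' := by
        intro r e
        funext k
        simp only [LinearMap.smul_apply, map_smul, Pi.smul_apply, RingHom.id_apply, smul_sub] }
  have hL : ∀ e k, L e k = e (ρ (tws hP k.1) k.2) - ρ (tws hP k.1) (e k.2) := fun _ _ => rfl
  obtain ⟨c, hc⟩ := ar_map I L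
  refine ⟨1 + c, fun e he => ?_⟩
  have h1 : L e ∈ I ^ (1 + c) • (⊤ : Submodule R (κ → V)) := by
    exact pi_mem_smul _ _ fun k => he _ (tws_mm hP k.1) k.2
  obtain ⟨w, hw, hw2⟩ := hc 1 e h1
  rw [pow_one] at hw
  refine ⟨e - w, ?_, by rwa [sub_sub_cancel]⟩
  have h2 : MMs hP ≤ comSub (MMs hP) ρ hρ (e - w) := by
    apply tws_gen hn hP
    intro k
    refine ⟨tws_mm hP k, ?_⟩
    apply LinearMap.ext_on (s := (s : Set V)) hs
    intro v hv
    have h3 := congrFun hw2 (k, ⟨v, hv⟩)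
    rw [hL] at h3
    exact sub_eq_zero.1 h3
  exact fun ψ hψ => (h2 hψ).2

/-- The main theorem, in terms of surface groups. -/
theorem quantum [IsNoetherianRing R] [Module.Finite R V] [Module.Finite R V'] (hn : 3 ≤ n)
    (h : IsSurf a b) (hP : IsSurf x y) (ρ : MulAut P → Module.End R V)
    (ρ' : MulAut G → Module.End R V') (hρ : ProjRep (MMs hP) ρ) (hρ' : ProjRep (MMs h) ρ')
    (i : V →ₗ[R] V') (hi : Function.Injective i)
    (hglue : ∀ f ∈ BMod a b, ∀ φ ∈ MMs hP, Induces x y a b f φ →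
      ∃ u : Rˣ, ∀ v, ρ' f (i v) = (u : R) • i (ρ φ v))
    (I : Ideal R) (hI : Finite (R ⧸ I) ∨ ∀ k, VirtScalar (MMs h) ρ' (I ^ k)) :
    ∃ Γ : Subgroup P, Γ.Characteristic ∧ Γ.FiniteIndex ∧ ∀ φ ∈ MMs hP, InnMod Γ φ →
      ∃ z : Module.End R V, (∀ ψ ∈ MMs hP, z * ρ ψ = ρ ψ * z) ∧
        ρ φ - z ∈ I • (⊤ : Submodule R (Module.End R V)) := by
  have hI2 : ∀ k, (cenSub (MMs h) (un fun φ => red (I ^ k) (ρ' φ))
      (un_mul (hρ'.pm.red (I ^ k)))).relIndex (MMs h) ≠ 0 := by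
    intro k
    rcases hI with hI | hI
    · have h1 : Finite (R ⧸ (I ^ k)) := finite_quot_pow I k
      have h2 : Finite (V' ⧸ ((I ^ k) • (⊤ : Submodule R V'))) := finite_quot_smul (I ^ k)
      have h3 : Finite (Module.End R (V' ⧸ ((I ^ k) • (⊤ : Submodule R V')))) :=
        Finite.of_injective (fun e => (e : _ → _)) DFunLike.coe_injective
      exact cen_of_finite (hρ'.pm.red (I ^ k))
    · exact cen_of_virt hρ'.pm (I ^ k) (hI k)
  obtain ⟨m, hm⟩ := stepB (by omega) hP ρ hρ.pm I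
  obtain ⟨Γ, h1, h2, h3⟩ := stepA hn h hP ρ ρ' hρ hρ' i hi hglue I hI2 m
  exact ⟨Γ, h1, h2, fun φ hφ hinn => hm (ρ φ) (h3 φ hφ hinn)⟩

end

end Pool.Agent.H.MP_59b15d_al.QT
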